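import Pool.Agent.TH715.RU.NF

/-!
# The uniform abc conjecture: points composed of random primes

For almost all sets of `m` primes of a number field of degree `n`, taken from any pool of at least
`C m` primes, the number of points of `a + b + c = 0` composed of these primes and of given primes
is subexponential in `m`, at all heights, and every such point involves few of the primes.
-/

set_option autoImplicit false

namespace Pool.Agent.Results.MP_6e34ef_nt.RandomPrimes

open NumberField IsDedekindDomain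

/-- the set `S` of the primes at which the absolute values of the three coordinates are not all
equal; the conductor `N(a, b, c)` is the product of the numbers `N(v) ^ (1 / n)` over this set -/
def supp {K : Type} [Field K] [NumberField K] (x : Fin 3 → K) : Set (HeightOneSpectrum (𝓞 K)) :=
  {v | ¬ (FinitePlace.mk v (x 0) = FinitePlace.mk v (x 1) ∧
    FinitePlace.mk v (x 1) = FinitePlace.mk v (x 2))}

/-- `x` is a triple with `x 0 + x 1 + x 2 = 0` and no coordinate equal to zero, composed of the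
primes in `S` -/
def Composed {K : Type} [Field K] [NumberField K] (S : Set (HeightOneSpectrum (𝓞 K)))
    (x : Fin 3 → K) : Prop :=
  x 0 + x 1 + x 2 = 0 ∧ x 0 * x 1 * x 2 ≠ 0 ∧ supp x ⊆ S

/-- the points `(a : b : c)` over `K`, of any height, with `a + b + c = 0`, `abc ≠ 0`, composed of
the primes in `S` -/
def Points (K : Type) [Field K] [NumberField K] (S : Set (HeightOneSpectrum (𝓞 K))) :
    Set (Projectivization K (Fin 3 → K)) :=
  {p | ∃ (x : Fin 3 → K) (hx : x ≠ 0), p = Projectivization.mk K x hx ∧ Composed S x}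

/-- the points composed of the primes in `P₀ ∪ Q` which involve exactly `w` primes outside `P₀` -/
def PointsW (K : Type) [Field K] [NumberField K] (P₀ Q : Set (HeightOneSpectrum (𝓞 K))) (w : ℕ) :
    Set (Projectivization K (Fin 3 → K)) :=
  {p | ∃ (x : Fin 3 → K) (hx : x ≠ 0), p = Projectivization.mk K x hx ∧ Composed (P₀ ∪ Q) x ∧
    (supp x \ P₀).ncard = w}

/-- there are only finitely many points composed of the primes in `P₀ ∪ P`, at most
`(C (1 + |P| / W)) ^ W`, and each of them involves at most `W` primes outside `P₀` -/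
def Good (K : Type) [Field K] [NumberField K] (P₀ P : Finset (HeightOneSpectrum (𝓞 K)))
    (C W : ℝ) : Prop :=
  (Points K (P₀ ∪ P)).Finite ∧
  ((Points K (P₀ ∪ P)).ncard : ℝ) ≤ (C * (1 + (P.card : ℝ) / W)) ^ W ∧
  ∀ x : Fin 3 → K, Composed (P₀ ∪ P) x → ((supp x \ P₀).ncard : ℝ) ≤ W

open Pool.Agent.TH715.RU Pool.Agent.TH876.Loc in
/-- For every `n` and `0 < ε ≤ 1/10` there is `C` such that for all number fields `K` of degree `n`
and all finite sets `P₀`, `Q` of primes of `K`:
* for all `w` at most `C ^ (|P₀| + w + 1) · binom(|Q|, w - ⌊(1/6 - ε) w⌋)` points are composed of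
  the primes in `P₀ ∪ Q` and involve exactly `w` primes outside `P₀`;
* if `m ≤ |Q|` and `W ≥ C`, `W ≥ |P₀|`, `W ≥ C m (m / |Q|) ^ (1/5 - ε)`, then for all but at most
  `exp (-W) · binom(|Q|, m)` of the subsets `P` of `Q` with `m` elements there are at most
  `(C (1 + m / W)) ^ W` points composed of the primes in `P₀ ∪ P`, and each of them involves at
  most `W` primes outside `P₀`. -/
theorem result (n : ℕ) (ε : ℝ) (hε : 0 < ε) (hε1 : ε ≤ 1 / 10) : ∃ C : ℝ, 0 < C ∧
    ∀ (K : Type) [Field K] [NumberField K], Module.finrank ℚ K = n →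
    ∀ P₀ Q : Finset (HeightOneSpectrum (𝓞 K)),
      (∀ w : ℕ, (PointsW K P₀ Q w).Finite ∧
        ((PointsW K P₀ Q w).ncard : ℝ) ≤
          C ^ (P₀.card + w + 1) * (Q.card.choose (w - ⌊(1 / 6 - ε) * w⌋₊) : ℝ)) ∧
      ∀ m : ℕ, m ≤ Q.card → ∀ W : ℝ, C ≤ W → (P₀.card : ℝ) ≤ W →
        C * m * ((m : ℝ) / Q.card) ^ (1 / 5 - ε) ≤ W →
        (({P : Finset (HeightOneSpectrum (𝓞 K)) | P ⊆ Q ∧ P.card = m ∧
          ¬ Good K P₀ P C W}.ncard : ℕ) : ℝ) ≤ Real.exp (-W) * (Q.card.choose m : ℝ) := by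
  classical
  obtain ⟨C₁, hC₁, hL₁⟩ := light_count n (3 * (1 / 6 - ε)) (by linarith)
  obtain ⟨C₀, hC₀, hL₀⟩ := light_count n (3 * (1 / 6 - ε / 2)) (by linarith)
  obtain ⟨C₂, hC₂, hT⟩ := term_bound C₀ (1 / 6 - ε / 2) (1 / 5 - ε) hC₀ (by linarith)
    (by linarith) (by nlinarith)
  have he : 0 < C₀ ^ 3 * Real.exp 1 := by positivity
  refine ⟨max C₁ (max C₂ (C₀ ^ 3 * Real.exp 1)), lt_of_lt_of_le (by linarith) (le_max_left _ _), ?_⟩
  intro K _ _ hn P₀ Q
  set C := max C₁ (max C₂ (C₀ ^ 3 * Real.exp 1)) with hC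
  have hCC₁ : C₁ ≤ C := le_max_left _ _
  have hCC₂ : C₂ ≤ C := (le_max_left _ _).trans (le_max_right _ _)
  have hCe : C₀ ^ 3 * Real.exp 1 ≤ C := (le_max_right _ _).trans (le_max_right _ _)
  have hC1 : 1 ≤ C := hC₁.trans hCC₁
  -- the support
  have hsupp : ∀ x : Fin 3 → K, x 0 + x 1 + x 2 = 0 → x 0 * x 1 * x 2 ≠ 0 →
      supp x = ((sp (x 0 / x 1) : Finset (HeightOneSpectrum (𝓞 K))) : Set _) := by
    intro x hs hne
    ext v
    rw [Finset.mem_coe, sp_of_triple hs hne]
    rfl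
  have hncard : ∀ x : Fin 3 → K, x 0 + x 1 + x 2 = 0 → x 0 * x 1 * x 2 ≠ 0 →
      (supp x \ (P₀ : Set (HeightOneSpectrum (𝓞 K)))).ncard = (sp (x 0 / x 1) \ P₀).card := by
    intro x hs hne
    rw [hsupp x hs hne, ← Finset.coe_sdiff, Set.ncard_coe_finset]
  have hsub : ∀ (x : Fin 3 → K) (P : Finset (HeightOneSpectrum (𝓞 K))),
      Composed (P₀ ∪ P) x → sp (x 0 / x 1) ⊆ P₀ ∪ P := by
    intro x P hx
    have h1 := hx.2.2
    rw [hsupp x hx.1 hx.2.1, ← Finset.coe_union, Finset.coe_subset] at h1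
    exact h1
  refine ⟨fun w => ?_, fun m hmQ W hCW hPW hcond => ?_⟩
  · have h1 := transfer (PointsW K P₀ Q w)
      (fun t => sp t \ P₀ ⊆ Q ∧ (sp t \ P₀).card = w)
      (C₁ ^ (P₀.card + w + 1) * (Q.card.choose (w - ⌊(1 / 6 - ε) * w⌋₊) : ℝ)) (by positivity) (by
        rintro p ⟨x, hx, hp, hc, hw⟩
        refine ⟨x, hx, hp, hc.1, hc.2.1, ?_, ?_⟩
        · intro v hv
          obtain ⟨hv1, hv2⟩ := Finset.mem_sdiff.1 hv
          rcases Finset.mem_union.1 (hsub x Q hc hv1) with h | h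
          · exact absurd h hv2
          · exact h
        · rw [← hncard x hc.1 hc.2.1]
          exact hw)
      (fun E hE => count_w (by linarith) (by linarith) hC₁ hL₁ hn P₀ Q w E fun x hx =>
        ⟨(hE x hx).1, (hE x hx).2.1, (hE x hx).2.2⟩)
    refine ⟨h1.1, h1.2.trans ?_⟩
    refine mul_le_mul_of_nonneg_right ?_ (Nat.cast_nonneg _)
    exact pow_le_pow_left₀ (by linarith) hCC₁ _
  · have hW0 : 0 < W := by linarith
    have hr : 0 ≤ ((m : ℝ) / Q.card) ^ (1 / 5 - ε) := by positivity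
    have hcond' : C₂ * m * ((m : ℝ) / Q.card) ^ (1 / 5 - ε) ≤ W := by
      refine le_trans ?_ hcond
      refine mul_le_mul_of_nonneg_right ?_ hr
      exact mul_le_mul_of_nonneg_right hCC₂ (Nat.cast_nonneg _)
    have hbad := bad_sets (K := K) (α := 1 / 6 - ε / 2) (by linarith) (by linarith) hC₀ hL₀ hn
      P₀ Q m hmQ W hW0 (fun w hwm hWw =>
        hT Q.card m w P₀.card W hmQ hwm hWw (hCC₂.trans hCW) hPW hcond')
    refine le_trans ?_ hbad
    have hset : {P : Finset (HeightOneSpectrum (𝓞 K)) | P ⊆ Q ∧ P.card = m ∧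
        ¬ Good K P₀ P C W} ⊆ (((Q.powersetCard m).filter fun P => ∃ x : K, Pt x ∧
          sp x ⊆ P₀ ∪ P ∧ W < (sp x \ P₀).card : Finset _) : Set _) := by
      intro P hP
      rw [Set.mem_ofPred_eq] at hP
      obtain ⟨hPQ, hPm, hPG⟩ := hP
      rw [Finset.mem_coe, Finset.mem_filter, Finset.mem_powersetCard]
      refine ⟨⟨hPQ, hPm⟩, ?_⟩
      by_contra hno
      apply hPG
      have hall : ∀ x : K, Pt x → sp x ⊆ P₀ ∪ P → ((sp x \ P₀).card : ℝ) ≤ W := by
        intro x h1 h2
        by_contra h3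
        exact hno ⟨x, h1, h2, not_le.1 h3⟩
      have h1 := transfer (Points K (P₀ ∪ P))
        (fun t => sp t ⊆ P₀ ∪ P)
        ((C₀ ^ 3 * Real.exp 1 * (1 + P.card / W)) ^ W) (by positivity) (by
          rintro p ⟨x, hx, hp, hc⟩
          exact ⟨x, hx, hp, hc.1, hc.2.1, hsub x P hc⟩)
        (fun E hE => good_count (κ := 3 * (1 / 6 - ε / 2)) (by linarith) hC₀ hL₀ hn P₀ P W
          (hC1.trans hCW) hPW E fun x hx =>
            ⟨(hE x hx).1, (hE x hx).2, hall x (hE x hx).1 (hE x hx).2⟩)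
      refine ⟨h1.1, h1.2.trans ?_, ?_⟩
      · refine Real.rpow_le_rpow (by positivity) ?_ hW0.le
        exact mul_le_mul_of_nonneg_right hCe (by positivity)
      · intro x hx
        rw [hncard x hx.1 hx.2.1]
        exact hall _ (pt_of_triple hx.1 hx.2.1) (hsub x P hx)
    have h2 := Set.ncard_le_ncard hset (Finset.finite_toSet _)
    rw [Set.ncard_coe_finset] at h2
    exact_mod_cast h2

end Pool.Agent.Results.MP_6e34ef_nt.RandomPrimes
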