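import Mathlib
import Pool.Agent.TH876.TM.Ext
import Pool.Agent.TH876.TM.Local
import Pool.Agent.TH876.TM.Glob
import Pool.Agent.TH876.TM.Scale
import Pool.Agent.TH876.TM.Count
import Pool.Agent.TH876.NP.Classes
import Pool.Agent.TH876.TM.Sel
import Pool.Agent.TH876.TM.Main
import Pool.Agent.TH876.TM.TwoPts

/-!
# The abc conjecture over number fields: triples two members of which are perfect powers up to ideals

`K` is a number field and `S` a finite set of primes of `K`. We count the points `(a : b : c)` over
`K` of any height with `a + b + c = 0` for which the orders of `a / b` outside `S` are divisible by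
`m`, by the primes dividing `c`.
-/

set_option autoImplicit false

namespace Pool.Agent.Results.MP_6e34ef_nt.TwoPowersUpToIdeals

open NumberField IsDedekindDomain

/-- the points `(a : b : c)`, `a + b + c = 0`, `abc ≠ 0`, over `K` such that the order of `a / b` at
every prime outside `S` is divisible by `m`, the product of the norms of the primes `v` outside `S`
with `|c|_v < max (|a|_v, |b|_v)` is at most `X`, each of these norms is at most `y`, and the
logarithmic height (relative to `K`) is at most `H` -/
def Points (K : Type) [Field K] [NumberField K] (S : Set (HeightOneSpectrum (𝓞 K))) (m : ℕ)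
    (X y H : ℝ) : Set (Projectivization K (Fin 3 → K)) :=
  {P | ∃ (x : Fin 3 → K) (hx : x ≠ 0), P = Projectivization.mk K x hx ∧ x 0 + x 1 + x 2 = 0 ∧
    x 0 * x 1 * x 2 ≠ 0 ∧
    (∀ v : HeightOneSpectrum (𝓞 K), v ∉ S →
      ∃ n : ℤ, v.valuation K (x 0 / x 1) = WithZero.exp ((m : ℤ) * n)) ∧
    Real.exp (∑ᶠ v ∈ {v : HeightOneSpectrum (𝓞 K) | v ∉ S ∧
      v.valuation K (x 2) < max (v.valuation K (x 0)) (v.valuation K (x 1))},
      Real.log (Ideal.absNorm v.asIdeal : ℝ)) ≤ X ∧
    (∀ v : HeightOneSpectrum (𝓞 K), v ∉ S →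
      v.valuation K (x 2) < max (v.valuation K (x 0)) (v.valuation K (x 1)) →
      (Ideal.absNorm v.asIdeal : ℝ) ≤ y) ∧
    Height.logHeight x ≤ H}

/-- Let `K` be a number field, `S` a finite set of primes, `m ≥ 3` and `ε > 0`. For all
`X, y, H ≥ 1` there are at most `C y X ^ (2 / m + ε) (1 + log H)` points `(a : b : c)` over `K` with
`a + b + c = 0`, `abc ≠ 0` such that the orders of `a / b` outside `S` are divisible by `m`, the
product of the norms of the primes outside `S` with `|c| < max (|a|, |b|)` is at most `X`, each of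
these norms is at most `y`, and the logarithmic height is at most `H`. -/
theorem result (K : Type) [Field K] [NumberField K] (S : Set (HeightOneSpectrum (𝓞 K)))
    (hS : S.Finite) (m : ℕ) (hm : 3 ≤ m) (ε : ℝ) (hε : 0 < ε) :
    ∃ C : ℝ, ∀ X y H : ℝ, 1 ≤ X → 1 ≤ y → 1 ≤ H → (Points K S m X y H).Finite ∧
      ((Points K S m X y H).ncard : ℝ) ≤ C * y * X ^ (2 / (m : ℝ) + ε) * (1 + Real.log H) :=
  Pool.Agent.TH876.TM.twoPts (fun K _ _ => Pool.Agent.TH876.TM.main K (Pool.Agent.TH876.TM.count K
    (Pool.Agent.TH876.TM.local_sys K (Pool.Agent.TH876.TM.ext K)) (Pool.Agent.TH876.TM.glob K)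
    (Pool.Agent.TH876.TM.scale K (Pool.Agent.TH876.TM.glob K)))
    (Pool.Agent.TH876.TM.sel K (Pool.Agent.TH876.NP.classes K))) K S hS m hm ε hε

end Pool.Agent.Results.MP_6e34ef_nt.TwoPowersUpToIdeals
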