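import Mathlib
import Pool.Agent.TH876.TM.NorthU
import Pool.Agent.TH876.TM.SetsU
import Pool.Agent.TH876.TM.ScaleU
import Pool.Agent.TH876.TM.CountU
import Pool.Agent.TH876.TM.ThreeU
import Pool.Agent.TH876.TM.UPts

/-!
# The uniform abc conjecture: points of any height, uniformly in the fields of degree `n`

We count the points `(a : b : c)` with `a + b + c = 0` over a number field `K` of degree `n` by
their conductor and the largest norm of a prime in it, with a constant which depends on `n` and `ε`
only, not on `K`; the height may be much larger than every power of the conductor.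
-/

set_option autoImplicit false

namespace Pool.Agent.Results.MP_6e34ef_nt.UniformAllHeights

open NumberField IsDedekindDomain

/-- the set `S` of the primes at which the absolute values of the coordinates are not all equal -/
def supp {K : Type} [Field K] [NumberField K] {n : ℕ} (z : Fin n → K) :
    Set (HeightOneSpectrum (𝓞 K)) := {v | ∃ i j, v.valuation K (z i) ≠ v.valuation K (z j)}

/-- the points `P = (a : b : c)` over `K` with `a + b + c = 0`, `abc ≠ 0`, with
`log N(a, b, c) ≤ T`, with `#(𝓞 K / v) ≤ y` for all primes `v` in `S` and with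
`log H(a, b, c) ≤ B`; here `H` is the absolute height -/
def Points (K : Type) [Field K] [NumberField K] (T y B : ℝ) :
    Set (Projectivization K (Fin 3 → K)) :=
  {P | ∃ (x : Fin 3 → K) (hx : x ≠ 0), P = Projectivization.mk K x hx ∧ x 0 + x 1 + x 2 = 0 ∧
    x 0 * x 1 * x 2 ≠ 0 ∧
    (∑ᶠ v ∈ supp x, Real.log (Ideal.absNorm v.asIdeal : ℝ)) / (Module.finrank ℚ K : ℝ) ≤ T ∧
    (∀ v ∈ supp x, (Ideal.absNorm v.asIdeal : ℝ) ≤ y) ∧
    Height.logHeight x / (Module.finrank ℚ K : ℝ) ≤ B}

/-- For all `n` and `ε > 0` there is `C` such that over every number field `K` of degree `n`, for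
all `T ≥ 0` and `y, B ≥ 1`, there are at most `C y exp ((2 / 3 + ε) n T) (1 + log B)` points
`(a : b : c)` with `a + b + c = 0`, `abc ≠ 0`, with conductor at most `exp T`, with primes of norm
at most `y` in the conductor, and with height at most `exp B`. -/
theorem result (n : ℕ) (ε : ℝ) (hε : 0 < ε) : ∃ C : ℝ,
    ∀ (K : Type) [Field K] [NumberField K], Module.finrank ℚ K = n → ∀ T y B : ℝ, 0 ≤ T →
      1 ≤ y → 1 ≤ B → (Points K T y B).Finite ∧ ((Points K T y B).ncard : ℝ) ≤
        C * y * Real.exp ((2 / 3 + ε) * n * T) * (1 + Real.log B) :=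
  Pool.Agent.TH876.TM.uPts (Pool.Agent.TH876.TM.countU Pool.Agent.TH876.TM.northU
    Pool.Agent.TH876.TM.setsU Pool.Agent.TH876.TM.scaleU) Pool.Agent.TH876.TM.threeU n ε hε

end Pool.Agent.Results.MP_6e34ef_nt.UniformAllHeights
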