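import Pool.Agent.TH876.QD.Main
import Pool.Agent.TH876.Proj
import Pool.Agent.TH876.KR.Fin

/-!
# The uniform abc conjecture: a power saving for all fields of degree `n`
-/

set_option autoImplicit false

namespace Pool.Agent.Results.MP_6e34ef_nt.UniformPowerSaving

open NumberField IsDedekindDomain

/-- the set `S` of the primes at which the absolute values of the three coordinates are not all
equal -/
def supp {K : Type} [Field K] [NumberField K] (x : Fin 3 → K) : Set (HeightOneSpectrum (𝓞 K)) :=
  {v | ¬ (FinitePlace.mk v (x 0) = FinitePlace.mk v (x 1) ∧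
    FinitePlace.mk v (x 1) = FinitePlace.mk v (x 2))}

/-- the logarithm of the conductor `N(a, b, c)` -/
noncomputable def logConductor {K : Type} [Field K] [NumberField K] (x : Fin 3 → K) : ℝ :=
  (∑ᶠ v ∈ supp x, Real.log (Ideal.absNorm v.asIdeal : ℝ)) / (Module.finrank ℚ K : ℝ)

/-- the points `P = (a : b : c)` over `K` with `a + b + c = 0`, `abc ≠ 0`, with
`log N(a, b, c) ≤ T` and with `log H(a, b, c) ≤ B`; here `H` is the absolute height -/
def Points (K : Type) [Field K] [NumberField K] (T B : ℝ) :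
    Set (Projectivization K (Fin 3 → K)) :=
  {P | ∃ (x : Fin 3 → K) (hx : x ≠ 0), P = Projectivization.mk K x hx ∧ x 0 + x 1 + x 2 = 0 ∧
    x 0 * x 1 * x 2 ≠ 0 ∧ logConductor x ≤ T ∧
    Height.logHeight x / (Module.finrank ℚ K : ℝ) ≤ B}

/-- For all `n` and `A` there are `δ > 0` and `C` such that over every number field of degree `n`,
for all `T ≥ 1`, there are at most `C exp ((n - δ) T)` points `(a : b : c)` with `a + b + c = 0`,
`abc ≠ 0`, with conductor at most `exp T` and with height at most `exp (T ^ A)`. -/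
theorem result (n : ℕ) (A : ℝ) : ∃ (δ : ℝ) (C : ℝ), 0 < δ ∧
    ∀ (K : Type) [Field K] [NumberField K], Module.finrank ℚ K = n → ∀ T : ℝ, 1 ≤ T →
      (Points K T (T ^ A)).Finite ∧
      ((Points K T (T ^ A)).ncard : ℝ) ≤ C * Real.exp (((n : ℝ) - δ) * T) := by
  rcases Nat.eq_zero_or_pos n with hn0 | hn0
  · refine ⟨1, 1, one_pos, ?_⟩
    intro K _ _ hn
    have : 0 < Module.finrank ℚ K := Module.finrank_pos
    omega
  have hnR : (1 : ℝ) ≤ n := by exact_mod_cast hn0
  have hnR0 : (0 : ℝ) < n := by linarith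
  obtain ⟨δ, hδ, hδ1, C, hC, h⟩ := Pool.Agent.TH876.QD.per_field n (max A 1) n (le_max_right _ _) hnR
  refine ⟨n * δ, C, by positivity, ?_⟩
  intro K _ _ hn T hT
  have hT0 : 0 < T := by linarith
  have hX : (1 : ℝ) ≤ Real.exp (n * T) := Real.one_le_exp (by positivity)
  have h1 := Pool.Agent.TH876.Loc.transfer (Points K T (T ^ A))
    (fun t => Pool.Agent.TH876.Loc.nn (Pool.Agent.TH876.Loc.sp t) ≤ Real.exp (n * T) ∧
      Pool.Agent.TH876.Loc.hgt t ≤ n * (1 + Real.log (Real.exp (n * T))) ^ max A 1)
    (C * Real.exp (n * T) ^ (1 - δ)) (by positivity) (by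
      rintro P ⟨x, hx, hP, hs, hne, hr, hh⟩
      refine ⟨x, hx, hP, hs, hne, ?_, ?_⟩
      · have hd : (Module.finrank ℚ K : ℝ) ≠ 0 := by rw [hn]; exact hnR0.ne'
        have h2 := Pool.Agent.TH876.Loc.exp_log_nn (x := x 0 / x 1) (I := supp x)
          (Pool.Agent.TH876.Loc.sp_of_triple hs hne) hd
        rw [← h2]
        refine Real.exp_le_exp.2 ?_
        rw [hn]
        refine mul_le_mul_of_nonneg_left ?_ hnR0.le
        unfold logConductor at hr
        rw [hn] at hr
        exact hr
      · have hx1 : x 1 ≠ 0 := fun h => hne (by rw [h]; ring)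
        have hpt := Pool.Agent.TH876.Loc.pt_of_triple hs hne
        refine (Pool.Agent.TH876.KR.hgt_le_logHeight hpt).trans ?_
        have e : (fun i : Fin 3 => Pool.Agent.TH876.Loc.L i (x 0 / x 1)) = (x 1)⁻¹ • x := by
          funext i
          rw [Pi.smul_apply, smul_eq_mul]
          fin_cases i
          · show x 0 / x 1 = (x 1)⁻¹ * x 0
            rw [div_eq_inv_mul]
          · show (1 : K) = (x 1)⁻¹ * x 1
            rw [inv_mul_cancel₀ hx1]
          · show -(x 0 / x 1) - 1 = (x 1)⁻¹ * x 2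
            have h2 : x 2 = -(x 0 + x 1) := by linear_combination hs
            rw [h2]
            field_simp
            ring
        rw [e, Height.logHeight_smul_eq_logHeight _ (inv_ne_zero hx1)]
        rw [hn, div_le_iff₀ hnR0] at hh
        refine hh.trans ?_
        rw [Real.log_exp, mul_comm]
        refine mul_le_mul_of_nonneg_left ?_ hnR0.le
        have hT1 : T ≤ 1 + n * T := by nlinarith
        calc T ^ A ≤ T ^ max A 1 := Real.rpow_le_rpow_of_exponent_le hT (le_max_left _ _)
          _ ≤ (1 + n * T) ^ max A 1 :=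
              Real.rpow_le_rpow hT0.le hT1 (by positivity))
    (fun E hE => h K hn _ hX E fun x hx => ⟨(hE x hx).1, (hE x hx).2.1, (hE x hx).2.2⟩)
  refine ⟨h1.1, h1.2.trans (le_of_eq ?_)⟩
  rw [← Real.exp_mul]
  congr 2
  ring

end Pool.Agent.Results.MP_6e34ef_nt.UniformPowerSaving
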